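import Mathlib

namespace Pool.Agent.Results.MP_37207a_lc.Yes

open Polynomial Cardinal FirstOrder

lemma notin {L : Type*} [Field L] [Algebra L ℝ] {a : ℝ} (ha : Transcendental L a) :
    a ∉ IntermediateField.adjoin L {a ^ 3} := by
  intro h
  obtain ⟨r, s, e⟩ := (IntermediateField.mem_adjoin_simple_iff L a).1 h
  have a0 : a ≠ 0 := fun h0 => ha (h0 ▸ isAlgebraic_zero)
  have s0 : aeval (a ^ 3) s ≠ 0 := fun h0 => a0 (by rw [e, h0, div_zero])
  have hs : s ≠ 0 := fun h0 => s0 (by rw [h0, map_zero])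
  have z : X * expand L 3 s - expand L 3 r = 0 := by
    apply transcendental_iff.1 ha
    rw [map_sub, map_mul, aeval_X, expand_aeval, expand_aeval, sub_eq_zero]
    exact (eq_div_iff s0).1 e
  have d := congrArg natDegree (sub_eq_zero.1 z)
  rw [natDegree_X_mul ((expand_ne_zero (by norm_num)).2 hs), natDegree_expand,
    natDegree_expand] at d
  omega

lemma base {ι : Type} {α : ι → ℝ} (h : AlgebraicIndependent ℚ α) (S : Set ι) (i : ι)
    (hi : i ∉ S) : α i ∉ Subfield.closure (Set.range (fun j => α j ^ 3) ∪ α '' S) := by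
  intro hm
  have t : Transcendental (IntermediateField.adjoin ℚ (α '' {i}ᶜ)) (α i) :=
    IntermediateField.transcendental_adjoin_iff.2 (h.transcendental_adjoin (by simp))
  refine notin t ?_
  have le : Subfield.closure (Set.range (fun j => α j ^ 3) ∪ α '' S) ≤
      (IntermediateField.adjoin (IntermediateField.adjoin ℚ (α '' {i}ᶜ)) {α i ^ 3}).toSubfield := by
    have m : ∀ j, j ≠ i → α j ∈
        IntermediateField.adjoin (IntermediateField.adjoin ℚ (α '' {i}ᶜ)) {α i ^ 3} := fun j hj =>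
      IntermediateField.algebraMap_mem _
        (⟨α j, IntermediateField.subset_adjoin _ _ ⟨j, hj, rfl⟩⟩ :
          IntermediateField.adjoin ℚ (α '' {i}ᶜ))
    rw [Subfield.closure_le]
    rintro _ (⟨j, rfl⟩ | ⟨j, hj, rfl⟩)
    · by_cases e : j = i
      · subst e
        exact IntermediateField.mem_adjoin_simple_self _ _
      · exact pow_mem (m j e) 3
    · exact m j (fun e => hi (e ▸ hj))
  exact le hm

def ext (K : Subfield ℝ) (r : ℝ) (hr : r ^ 2 ∈ K) (hn : r ∉ K) : Subfield ℝ where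
  carrier := {z | ∃ a ∈ K, ∃ b ∈ K, z = a + b * r}
  zero_mem' := ⟨0, K.zero_mem, 0, K.zero_mem, by ring⟩
  one_mem' := ⟨1, K.one_mem, 0, K.zero_mem, by ring⟩
  add_mem' := by
    rintro _ _ ⟨a, ha, b, hb, rfl⟩ ⟨c, hc, d, hd, rfl⟩
    exact ⟨a + c, add_mem ha hc, b + d, add_mem hb hd, by ring⟩
  neg_mem' := by
    rintro _ ⟨a, ha, b, hb, rfl⟩
    exact ⟨-a, neg_mem ha, -b, neg_mem hb, by ring⟩
  mul_mem' := by
    rintro _ _ ⟨a, ha, b, hb, rfl⟩ ⟨c, hc, d, hd, rfl⟩
    exact ⟨a * c + b * d * r ^ 2, add_mem (mul_mem ha hc) (mul_mem (mul_mem hb hd) hr),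
      a * d + b * c, add_mem (mul_mem ha hd) (mul_mem hb hc), by ring⟩
  inv_mem' := by
    rintro _ ⟨a, ha, b, hb, rfl⟩
    have hN : a ^ 2 - b ^ 2 * r ^ 2 ∈ K := sub_mem (pow_mem ha 2) (mul_mem (pow_mem hb 2) hr)
    by_cases hb0 : b = 0
    · exact ⟨a⁻¹, inv_mem ha, 0, K.zero_mem, by simp [hb0]⟩
    · have n1 : a + b * r ≠ 0 := fun h => hn (by
        have : r = -a / b := by field_simp; linarith
        rw [this]; exact div_mem (neg_mem ha) hb)
      have n2 : a - b * r ≠ 0 := fun h => hn (by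
        have : r = a / b := by field_simp; linarith
        rw [this]; exact div_mem ha hb)
      refine ⟨a / (a ^ 2 - b ^ 2 * r ^ 2), div_mem ha hN, -b / (a ^ 2 - b ^ 2 * r ^ 2),
        div_mem (neg_mem hb) hN, ?_⟩
      have : a ^ 2 - b ^ 2 * r ^ 2 = (a + b * r) * (a - b * r) := by ring
      rw [this]
      field_simp
      ring

lemma field {ι : Type} {α : ι → ℝ} (h : AlgebraicIndependent ℚ α) (S : Set ι) :
    ∃ K : Subfield ℝ, (∀ i, α i ^ 3 ∈ K) ∧ (∀ i, α i ∈ K ↔ i ∈ S) ∧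
      ∀ r : ℝ, r ^ 2 ∈ K → r ∈ K := by
  obtain ⟨K, hK, hm⟩ := zorn_le_nonempty₀ {K : Subfield ℝ | ∀ i ∉ S, α i ∉ K}
    (fun c hc hch y hy => by
      refine ⟨sSup c, fun i hi hm => ?_, fun z hz => le_sSup hz⟩
      obtain ⟨F, hF, hm⟩ := (Subfield.mem_sSup_of_directedOn ⟨y, hy⟩ hch.directedOn).1 hm
      exact hc hF i hi hm) _ (fun i hi => base h S i hi)
  have c3 : ∀ i, α i ^ 3 ∈ K := fun i => hK (Subfield.subset_closure (Or.inl ⟨i, rfl⟩))
  refine ⟨K, c3, fun i => ⟨fun hi => by_contra fun hn => hm.1 i hn hi,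
    fun hi => hK (Subfield.subset_closure (Or.inr ⟨i, hi, rfl⟩))⟩, fun r hr => ?_⟩
  by_contra hn
  have le : K ≤ ext K r hr hn := fun a ha => ⟨a, ha, 0, K.zero_mem, by ring⟩
  refine hn (hm.2 (y := ext K r hr hn) ?_ le ⟨0, K.zero_mem, 1, K.one_mem, by ring⟩)
  rintro i hi ⟨a, ha, b, hb, e⟩
  have r0 : r ≠ 0 := fun h0 => hn (h0 ▸ K.zero_mem)
  have b0 : b ≠ 0 := fun h0 => hm.1 i hi (by rw [e, h0]; simpa using ha)
  have p : 3 * a ^ 2 * b + b ^ 3 * r ^ 2 ≠ 0 := by
    have : 3 * a ^ 2 * b + b ^ 3 * r ^ 2 = b * (3 * a ^ 2 + (b * r) ^ 2) := by ring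
    rw [this]
    exact mul_ne_zero b0 (by positivity)
  have three : (3 : ℝ) ∈ K := by exact_mod_cast natCast_mem K 3
  have : r = (α i ^ 3 - a ^ 3 - 3 * a * b ^ 2 * r ^ 2) / (3 * a ^ 2 * b + b ^ 3 * r ^ 2) := by
    rw [eq_div_iff p, e]; ring
  apply hn
  rw [this]
  exact div_mem (sub_mem (sub_mem (c3 i) (pow_mem ha 3))
    (mul_mem (mul_mem (mul_mem three ha) (pow_mem hb 2)) hr))
    (add_mem (mul_mem (mul_mem three (pow_mem ha 2)) hb) (mul_mem (pow_mem hb 3) hr))

lemma arch (K : Subfield ℝ) (hK : ∀ r : ℝ, r ^ 2 ∈ K → r ∈ K) (o : LinearOrder K)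
    (ho : @IsStrictOrderedRing K _ o.toPartialOrder) (x : K) : ∃ n : ℕ, o.lt x n := by
  obtain ⟨n, hn⟩ := exists_nat_gt (x : ℝ)
  have e : √(n - x) ^ 2 = n - x := Real.sq_sqrt (by linarith)
  let y : K := ⟨√(n - x), hK _ (by rw [e]; exact sub_mem (natCast_mem K n) x.2)⟩
  have y0 : y ≠ 0 := fun h => by
    have : √(n - x) = 0 := congrArg Subtype.val h
    rw [this] at e
    linarith
  have e2 : (n : K) = x + y ^ 2 := Subtype.ext (by simp [y, e])
  refine ⟨n, ?_⟩
  rw [e2]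
  clear_value y
  have g : ∀ (R : Type) [Field R] [LinearOrder R] [IsStrictOrderedRing R] (x y : R), y ≠ 0 →
      x < x + y ^ 2 := fun R _ _ _ x y hy => lt_add_of_pos_right x (by positivity)
  exact @g K _ o ho x y y0

lemma defn (K : Type) [Field K] : letI := Ring.compatibleRingOfRing K
    (∅ : Set K).Definable₁ Language.ring {x : K | ∃ y : K, y ^ 3 = x} := by
  letI := Ring.compatibleRingOfRing K
  have h : (∅ : Set K).Definable Language.ring
      {v : Fin 1 ⊕ Unit → K | v (.inr ()) ^ 3 = v (.inl 0)} := by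
    refine Set.empty_definable_iff.2 ⟨Language.Term.equal
      (.var (.inr ()) * .var (.inr ()) * .var (.inr ())) (.var (.inl 0)), ?_⟩
    ext v
    simp [pow_succ]
  have := h.exists_of_finite
  unfold Set.Definable₁
  refine cast (congrArg _ ?_) this
  ext v
  exact ⟨fun ⟨u, hu⟩ => ⟨u (), hu⟩, fun ⟨y, hy⟩ => ⟨fun _ => y, hy⟩⟩

theorem result : ∃ K : Subfield ℝ,
    (∀ o : LinearOrder K, @IsStrictOrderedRing K _ o.toPartialOrder →
      ∀ x : K, ∃ n : ℕ, o.lt x n) ∧
    ∃ D : Set K, D = {x : K | ∃ y : K, y ^ 3 = x} ∧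
      (letI := Ring.compatibleRingOfRing K; (∅ : Set K).Definable₁ Language.ring D) ∧
      ¬ @MeasurableSet K (borel K) D := by
  by_contra hc
  obtain ⟨ι, α, hα⟩ := exists_isTranscendenceBasis' ℚ ℝ
  have big : 𝔠 ≤ #ι := by
    rcases isEmpty_or_nonempty ι with h | h
    · have := hα.isEmpty_iff_isAlgebraic.1 h
      have c := Algebra.IsAlgebraic.cardinalMk_le_max ℚ ℝ
      rw [mk_real, Cardinal.mkRat, max_self] at c
      exact absurd c aleph0_lt_continuum.not_ge
    · have c := hα.lift_cardinalMk_eq_max_lift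
      simp only [lift_id, mk_real, Cardinal.mkRat] at c
      by_contra hl
      push Not at hl
      exact c.not_gt (max_lt (max_lt aleph0_lt_continuum hl) aleph0_lt_continuum)
  have key : ∀ S : Set ι, ∃ B : {t | @MeasurableSet ℝ (borel ℝ) t}, ∀ i, α i ^ 3 ∈ B.1 ↔ i ∈ S := by
    intro S
    obtain ⟨K, c3, hS, hK⟩ := field hα.1 S
    have m : @MeasurableSet K (borel K) {x : K | ∃ y : K, y ^ 3 = x} := by
      by_contra hm
      exact hc ⟨K, arch K hK, _, rfl, defn K, hm⟩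
    have e : borel K = (borel ℝ).comap Subtype.val :=
      borel_comap (f := (Subtype.val : K → ℝ))
    rw [e] at m
    obtain ⟨B, hB, hB2⟩ := m
    refine ⟨⟨B, hB⟩, fun i => ?_⟩
    have : (⟨α i ^ 3, c3 i⟩ : K) ∈ Subtype.val ⁻¹' B ↔ ∃ y : K, y ^ 3 = ⟨α i ^ 3, c3 i⟩ := by
      rw [hB2]; rfl
    refine this.trans (Iff.trans ?_ (hS i))
    constructor
    · rintro ⟨y, hy⟩
      have : (y : ℝ) ^ 3 = α i ^ 3 := by simpa using congrArg Subtype.val hy
      rw [← (Odd.pow_inj (by decide)).1 this]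
      exact y.2
    · intro hi
      exact ⟨⟨α i, hi⟩, Subtype.ext (by simp)⟩
  choose B hB using key
  have inj : Function.Injective B := fun S T e => by
    ext i
    rw [← hB, ← hB, e]
  have le := mk_le_of_injective inj
  have c : #{t | @MeasurableSet ℝ (borel ℝ) t} ≤ 𝔠 := by
    rw [Real.borel_eq_generateFrom_Iio_rat]
    refine MeasurableSpace.cardinal_measurableSet_le_continuum ?_
    refine (Set.Countable.le_aleph0 ?_).trans aleph0_le_continuum
    exact Set.countable_iUnion fun _ => Set.countable_singleton _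
  rw [mk_set] at le
  exact ((le.trans c).trans big).not_gt (cantor _)

end Pool.Agent.Results.MP_37207a_lc.Yes
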